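import Mathlib
import Pool.Agent.W811.Nd.Stm

set_option autoImplicit false

open Set Pool.Agent.W811.Stu Pool.Agent.W811.Nd

namespace Pool.Agent.W912.Nd

lemma inc {F : ℝ → ℝ} {a b : ℝ} (hab : a < b) (hc : ContinuousOn F (Icc a b))
    (hi : InjOn F (Icc a b)) (ha : F a = -1) (hb : F b = 1) (q h : ℝ) (hh : 0 < h)
    (hq : |q| + h < 1) : ∃ a' b', a < a' ∧ a' < b' ∧ b' < b ∧
      (∀ e ∈ Icc a b, (e ∈ Icc a' b' ↔ |F e - q| ≤ h)) ∧ F a' = q - h ∧ F b' = q + h := by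
  have hm : StrictMonoOn F (Icc a b) :=
    ContinuousOn.strictMonoOn_of_injOn_Icc hab.le (by rw [ha, hb]; norm_num) hc hi
  have h1 := neg_abs_le q
  have h2 := le_abs_self q
  obtain ⟨a', ha', hFa⟩ := intermediate_value_Ioo hab.le hc
    (show q - h ∈ Ioo (F a) (F b) by rw [ha, hb]; constructor <;> linarith)
  obtain ⟨b', hb', hFb⟩ := intermediate_value_Ioo hab.le hc
    (show q + h ∈ Ioo (F a) (F b) by rw [ha, hb]; constructor <;> linarith)
  have ha'' := Ioo_subset_Icc_self ha'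
  have hb'' := Ioo_subset_Icc_self hb'
  refine ⟨a', b', ha'.1, ?_, hb'.2, ?_, hFa, hFb⟩
  · rw [← hm.lt_iff_lt ha'' hb'', hFa, hFb]; linarith
  · intro e he
    rw [mem_Icc, ← hm.le_iff_le ha'' he, ← hm.le_iff_le he hb'', hFa, hFb, abs_le]
    constructor
    · rintro ⟨h3, h4⟩; constructor <;> linarith
    · rintro ⟨h3, h4⟩; constructor <;> linarith

lemma core {F G : ℝ → ℝ} {a b K : ℝ} (hab : a < b) (hd : ∀ x, HasDerivAt F (G x) x)
    (hG : ∀ x ∈ Icc a b, G x ≠ 0) (hK : ∀ x ∈ Icc a b, ∀ y ∈ Icc a b, |G x| ≤ K * |G y|)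
    (he : (F a = -1 ∧ F b = 1) ∨ (F a = 1 ∧ F b = -1)) :
    (∀ x ∈ Icc a b, ∀ x' ∈ Icc a b,
      |x - x'| ≤ K * (|F x - F x'| / 2 * (b - a)) ∧ |F x - F x'| / 2 * (b - a) ≤ K * |x - x'|) ∧
    (∀ q h : ℝ, 0 < h → |q| + h < 1 → ∃ a' b', a < a' ∧ a' < b' ∧ b' < b ∧
      (∀ e ∈ Icc a b, (e ∈ Icc a' b' ↔ |F e - q| ≤ h)) ∧
      ((F a' = q - h ∧ F b' = q + h) ∨ (F a' = q + h ∧ F b' = q - h))) := by
  have hcont : Continuous F := continuous_iff_continuousAt.2 fun x => (hd x).continuousAt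
  have hmv : ∀ x ∈ Icc a b, ∀ x' ∈ Icc a b, ∃ ξ ∈ Icc a b, |F x - F x'| = |G ξ| * |x - x'| := by
    have key : ∀ x ∈ Icc a b, ∀ x' ∈ Icc a b, x < x' →
        ∃ ξ ∈ Icc a b, |F x - F x'| = |G ξ| * |x - x'| := by
      intro x hx x' hx' hlt
      obtain ⟨ξ, hξ, h⟩ := exists_hasDerivAt_eq_slope F G hlt hcont.continuousOn
        (fun y _ => hd y)
      refine ⟨ξ, ⟨hx.1.trans hξ.1.le, hξ.2.le.trans hx'.2⟩, ?_⟩
      have hne : x' - x ≠ 0 := by linarith
      have h' : F x' - F x = G ξ * (x' - x) := by rw [h]; field_simp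
      rw [abs_sub_comm, h', abs_mul, abs_sub_comm x' x]
    intro x hx x' hx'
    rcases lt_trichotomy x x' with h | h | h
    · exact key x hx x' hx' h
    · refine ⟨x, hx, ?_⟩; rw [h]; simp
    · obtain ⟨ξ, hξ, h1⟩ := key x' hx' x hx h
      exact ⟨ξ, hξ, by rw [abs_sub_comm, h1, abs_sub_comm x' x]⟩
  have hinj : InjOn F (Icc a b) := by
    intro x hx x' hx' h
    obtain ⟨ξ, hξ, h1⟩ := hmv x hx x' hx'
    rw [h, sub_self, abs_zero, eq_comm, mul_eq_zero] at h1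
    rcases h1 with h1 | h1
    · exact absurd (abs_eq_zero.1 h1) (hG ξ hξ)
    · exact sub_eq_zero.1 (abs_eq_zero.1 h1)
  constructor
  · intro x hx x' hx'
    obtain ⟨ξ, hξ, h1⟩ := hmv x hx x' hx'
    obtain ⟨η, hη, h2⟩ := hmv b ⟨hab.le, le_rfl⟩ a ⟨le_rfl, hab.le⟩
    have h3 : |F b - F a| = 2 := by
      rcases he with ⟨h, h'⟩ | ⟨h, h'⟩ <;> rw [h, h'] <;> norm_num
    have h4 : |b - a| = b - a := abs_of_pos (by linarith)
    rw [h3, h4] at h2
    have hba : 0 < b - a := by linarith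
    have h5 := hK ξ hξ η hη
    have h6 := hK η hη ξ hξ
    have h7 : 0 ≤ |x - x'| := abs_nonneg _
    have h8 : 0 ≤ |x - x'| * (b - a) / 2 := by positivity
    constructor
    · calc |x - x'| = |G η| * (|x - x'| * (b - a) / 2) := by
            have : |G η| * (|x - x'| * (b - a) / 2) = (|G η| * (b - a)) * |x - x'| / 2 := by ring
            rw [this, ← h2]; ring
        _ ≤ (K * |G ξ|) * (|x - x'| * (b - a) / 2) := mul_le_mul_of_nonneg_right h6 h8
        _ = K * (|F x - F x'| / 2 * (b - a)) := by rw [h1]; ring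
    · calc |F x - F x'| / 2 * (b - a) = |G ξ| * (|x - x'| * (b - a) / 2) := by rw [h1]; ring
        _ ≤ (K * |G η|) * (|x - x'| * (b - a) / 2) := mul_le_mul_of_nonneg_right h5 h8
        _ = K * |x - x'| := by
            have : (K * |G η|) * (|x - x'| * (b - a) / 2)
              = K * |x - x'| * (|G η| * (b - a)) / 2 := by ring
            rw [this, ← h2]; ring
  · intro q h hh hq
    rcases he with ⟨h1, h2⟩ | ⟨h1, h2⟩
    · obtain ⟨a', b', e1, e2, e3, e4, e5, e6⟩ :=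
        inc hab hcont.continuousOn hinj h1 h2 q h hh hq
      exact ⟨a', b', e1, e2, e3, e4, Or.inl ⟨e5, e6⟩⟩
    · obtain ⟨a', b', e1, e2, e3, e4, e5, e6⟩ :=
        inc (F := fun x => -F x) hab hcont.neg.continuousOn
          (fun x hx x' hx' h => hinj hx hx' (neg_injective h)) (by simp [h1]) (by simp [h2])
          (-q) h hh (by rwa [abs_neg])
      refine ⟨a', b', e1, e2, e3, ?_, Or.inr ⟨by linarith, by linarith⟩⟩
      intro e he
      rw [e4 e he]
      have : |-F e - -q| = |F e - q| := by rw [← abs_neg]; ring_nf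
      rw [this]

lemma cc_big {lam : ℝ} (h : Big lam) : 5 * 10 ^ 7 ≤ cc (lam / 2) := by
  unfold Big at h
  have h1 : lam / 2 ≤ cc (lam / 2) := by
    unfold cc
    apply Real.le_sqrt_of_sq_le
    linarith
  linarith

lemma exp_bd {c : ℝ} (h : 5 * 10 ^ 7 ≤ c) : Real.exp (2 * 1 / (c - 1)) ≤ 1 + 1 / 10 ^ 5 := by
  have h1 : 2 * 1 / (c - 1) ≤ 1 / 10 ^ 6 := by
    rw [div_le_div_iff₀ (by linarith) (by norm_num)]
    linarith
  have h2 : Real.exp (2 * 1 / (c - 1)) ≤ Real.exp (1 / 10 ^ 6) := Real.exp_le_exp.2 h1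
  have h3 := Real.exp_bound_div_one_sub_of_interval' (x := 1 / 10 ^ 6) (by norm_num) (by norm_num)
  refine h2.trans (h3.le.trans ?_)
  norm_num

/-- distortion on a node -/
theorem dis (h : TDist) : TDis := by
  intro lam d m B hl hd hB
  have hlam : (10 : ℝ) ^ 8 ≤ lam := hl
  have hlam0 : lam ≠ 0 := by intro h0; rw [h0] at hlam; norm_num at hlam
  obtain ⟨D1, D2⟩ := h lam hlam0 d hd m
  have hc := cc_big hl
  have hc1 : 1 < cc (lam / 2) := by linarith
  obtain ⟨D3, _⟩ := D2 1 one_pos hc1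
  refine core (F := fun e => (orb d (lin lam e) m).y) (G := fun e => -(Vy d m (lin lam e)) / lam)
    (K := 1 + 1 / 10 ^ 5) hB.lt (fun x => hasDeriv_level hlam0 d m x) ?_ ?_ hB.ends
  · intro x hx
    have := D1 x (lt_of_le_of_lt (hB.y1 x hx) hc1)
    exact div_ne_zero (neg_ne_zero.2 this) hlam0
  · intro x hx y hy
    have h1 := (D3 x y (fun e he => hB.y1 e (by
      rcases mem_uIcc.1 he with h' | h'
      · exact ⟨hx.1.trans h'.1, h'.2.trans hy.2⟩
      · exact ⟨hy.1.trans h'.1, h'.2.trans hx.2⟩))).1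
    have h2 : |Vy d m (lin lam x)| ≤ (1 + 1 / 10 ^ 5) * |Vy d m (lin lam y)| :=
      h1.trans (mul_le_mul_of_nonneg_right (exp_bd hc) (abs_nonneg _))
    simp only [abs_div, abs_neg]
    rw [← mul_div_assoc]
    exact div_le_div_of_nonneg_right h2 (abs_nonneg _)

end Pool.Agent.W912.Nd
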